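import Mathlib
import Pool.Agent.R665.FJ.Hn

/-!
Residual properties and splittings over groups of finite Hirsch length.
-/

set_option autoImplicit false

namespace Pool.Agent.R632.RH

open Pool.Agent.Y110.FJ

/-- Groups of finite Hirsch length: they are obtained from the trivial group by finitely many
extensions with quotients which are torsion groups or locally cyclic groups. -/
inductive FiniteHirsch : ∀ (K : Type) [Group K], Prop
  | triv (K : Type) [Group K] : Subsingleton K → FiniteHirsch K
  | ext (K : Type) [Group K] (M : Subgroup K) [M.Normal] : FiniteHirsch M →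
      ((∀ x : K ⧸ M, ∃ n : ℕ, 0 < n ∧ x ^ n = 1) ∨
        ∀ x y : K ⧸ M, ∃ c : K ⧸ M, x ∈ Subgroup.zpowers c ∧ y ∈ Subgroup.zpowers c) →
      FiniteHirsch K

/-- The group is torsion-free. -/
def TorsionFree (Q : Type) [Group Q] : Prop := ∀ g : Q, ∀ n : ℕ, 0 < n → g ^ n = 1 → g = 1

/-- `G` is residually a torsion-free member of `C`. -/
def ResTF (C : ∀ (G : Type) [Group G], Prop) (G : Type) [Group G] : Prop :=
  ∀ g : G, g ≠ 1 → ∃ (Q : Type) (_ : Group Q) (f : G →* Q), C Q ∧ TorsionFree Q ∧ f g ≠ 1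

/-- isolated normal subgroups -/
def Isl {K : Type} [Group K] (N : Subgroup K) : Prop :=
  N.Normal ∧ ∀ (x : K) (n : ℕ), 0 < n → x ^ n ∈ N → x ∈ N

theorem Isl.zpow {K : Type} [Group K] {N : Subgroup K} (h : Isl N) (x : K) (b : ℤ) (hb : b ≠ 0)
    (hx : x ^ b ∈ N) : x ∈ N := by
  refine h.2 x b.natAbs (Int.natAbs_pos.2 hb) ?_
  rcases Int.natAbs_eq b with h1 | h1
  · rw [h1, zpow_natCast] at hx
    exact hx
  · rw [h1, zpow_neg, zpow_natCast] at hx
    exact inv_mem_iff.1 hx

theorem dcc (K : Type) [Group K] (hK : FiniteHirsch K) : ∀ s : ℕ → Subgroup K,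
    (∀ i, Isl (s i)) → Antitone s → ∃ n, ∀ m, n ≤ m → s m = s n := by
  induction hK with
  | triv K h =>
    intro s _ _
    exact ⟨0, fun m _ => Subsingleton.elim _ _⟩
  | ext K M _ hq ih =>
    intro s hs ha
    obtain ⟨n0, hn0⟩ := ih (fun i => (s i).subgroupOf M) (by
      intro i
      refine ⟨?_, ?_⟩
      · have := (hs i).1
        infer_instance
      · intro x n hn hx
        rw [Subgroup.mem_subgroupOf] at hx ⊢
        exact (hs i).2 x n hn hx) (by
      intro i j hij x hx
      rw [Subgroup.mem_subgroupOf] at hx ⊢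
      exact ha hij hx)
    have hM : ∀ m, n0 ≤ m → ∀ x ∈ M, x ∈ s n0 → x ∈ s m := by
      intro m hm x hx hxs
      have h1 : (⟨x, hx⟩ : M) ∈ (s n0).subgroupOf M := hxs
      have h2 : (s m).subgroupOf M = (s n0).subgroupOf M := hn0 m hm
      rw [← h2] at h1
      exact h1
    rcases hq with hq | hq
    · refine ⟨n0, fun m hm => le_antisymm (ha hm) ?_⟩
      intro x hx
      obtain ⟨k, hk, hxk⟩ := hq (x : K ⧸ M)
      have h1 : x ^ k ∈ M := by
        rw [← QuotientGroup.mk_pow] at hxk
        exact (QuotientGroup.eq_one_iff _).1 hxk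
      exact (hs m).2 x k hk (hM m hm _ h1 (pow_mem hx k))
    · by_cases h : ∃ m1, n0 ≤ m1 ∧ s m1 ≤ M
      · obtain ⟨m1, h1, h2⟩ := h
        refine ⟨m1, fun m hm => le_antisymm (ha hm) ?_⟩
        intro x hx
        exact hM m (h1.trans hm) x (h2 hx) (ha h1 hx)
      · push Not at h
        refine ⟨n0, fun m hm => le_antisymm (ha hm) ?_⟩
        intro x hx
        obtain ⟨y, hy, hyM⟩ := SetLike.not_le_iff_exists.1 (h m hm)
        obtain ⟨c, ⟨a, hca⟩, ⟨b, hcb⟩⟩ := hq (x : K ⧸ M) (y : K ⧸ M)
        have hb : b ≠ 0 := by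
          rintro rfl
          apply hyM
          rw [← QuotientGroup.eq_one_iff, ← hcb]
          exact zpow_zero c
        have h1 : x ^ b * (y ^ a)⁻¹ ∈ M := by
          rw [← QuotientGroup.eq_one_iff, QuotientGroup.mk_mul, QuotientGroup.mk_inv,
            QuotientGroup.mk_zpow, QuotientGroup.mk_zpow, ← hca, ← hcb]
          simp only
          rw [← zpow_mul, ← zpow_mul, mul_comm a b, mul_inv_cancel]
        have h2 : x ^ b * (y ^ a)⁻¹ ∈ s n0 :=
          mul_mem (zpow_mem hx b) (inv_mem (zpow_mem (ha hm hy) a))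
        have h3 := hM m hm _ h1 h2
        have h4 : x ^ b ∈ s m := by
          have := mul_mem h3 (zpow_mem hy a)
          rwa [inv_mul_cancel_right] at this
        exact (hs m).zpow x b hb h4

theorem detect {C : ∀ (G : Type) [Group G], Prop} (hC : ClosedE C) {G K : Type} [Group G]
    [Group K] (hG : ResTF C G) (hK : FiniteHirsch K) (j : K →* G) (hj : Function.Injective j) :
    ∃ (Q : Type) (_ : Group Q) (f : G →* Q), C Q ∧ ∀ k, f (j k) = 1 → k = 1 := by
  have hwf : WellFoundedLT {N : Subgroup K // Isl N} := by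
    have h1 : WellFoundedGT ({N : Subgroup K // Isl N})ᵒᵈ := by
      rw [wellFoundedGT_iff_monotone_chain_condition]
      intro a
      obtain ⟨n, hn⟩ := dcc K hK (fun i => (OrderDual.ofDual (a i)).1)
        (fun i => (OrderDual.ofDual (a i)).2) (fun i k hik => a.2 hik)
      refine ⟨n, fun m hm => ?_⟩
      have h2 := hn m hm
      have h3 : OrderDual.ofDual (a n) = OrderDual.ofDual (a m) := Subtype.ext h2.symm
      exact h3
    exact ⟨h1.wf⟩
  let T : Set {N : Subgroup K // Isl N} := {N | ∃ (Q : Type) (_ : Group Q) (f : G →* Q),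
    C Q ∧ TorsionFree Q ∧ N.1 = (f.comp j).ker}
  have mk : ∀ (Q : Type) [Group Q] (f : G →* Q), TorsionFree Q → Isl (f.comp j).ker := by
    intro Q _ f hQ
    refine ⟨inferInstance, ?_⟩
    intro x n hn hx
    rw [MonoidHom.mem_ker, map_pow] at hx
    exact hQ _ n hn hx
  have hZ : TorsionFree (Multiplicative ℤ) := by
    intro g n hn hg
    have h1 : (n : ℤ) * Multiplicative.toAdd g = 0 := by
      have := congrArg Multiplicative.toAdd hg
      rw [toAdd_pow, toAdd_one, nsmul_eq_mul] at this
      exact this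
    rcases mul_eq_zero.1 h1 with h2 | h2
    · omega
    · exact h2
  have hT : T.Nonempty := ⟨⟨((1 : G →* Multiplicative ℤ).comp j).ker, mk _ _ hZ⟩,
    Multiplicative ℤ, inferInstance, 1, hC.base.int, hZ, rfl⟩
  obtain ⟨⟨N, hN⟩, ⟨Q, _, f, hQ, hQT, hNf⟩, hmin⟩ := hwf.wf.has_min T hT
  simp only at hNf
  subst hNf
  refine ⟨Q, inferInstance, f, hQ, ?_⟩
  intro k hk
  by_contra hk1
  obtain ⟨Q', _, f', hQ', hQT', hf'⟩ := hG (j k) (fun h => hk1 (hj (h.trans (map_one j).symm)))
  have hP : TorsionFree (Q × Q') := by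
    intro g n hn hg
    exact Prod.ext (hQT _ n hn (congrArg Prod.fst hg)) (hQT' _ n hn (congrArg Prod.snd hg))
  refine hmin ⟨((f.prod f').comp j).ker, mk _ _ hP⟩
    ⟨Q × Q', inferInstance, f.prod f', hC.base.prod _ _ hQ hQ', hP, rfl⟩ ?_
  refine lt_of_le_of_ne ?_ ?_
  · intro x hx
    exact congrArg Prod.fst hx
  · intro h
    have h1 : k ∈ (f.comp j).ker := hk
    have h2 : k ∈ ((f.prod f').comp j).ker := by
      have h3 := congrArg Subtype.val h
      simp only at h3
      rw [h3]
      exact h1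
    exact hf' (congrArg Prod.snd h2)

theorem ResTF.of_injective {C : ∀ (G : Type) [Group G], Prop} {G H : Type} [Group G] [Group H]
    (hH : ResTF C H) (i : G →* H) (hi : Function.Injective i) : ResTF C G := by
  intro g hg
  obtain ⟨Q, _, f, h1, h2, h3⟩ := hH (i g) (fun h => hg (hi (h.trans (map_one i).symm)))
  exact ⟨Q, inferInstance, f.comp i, h1, h2, h3⟩

/-- Hierarchies over groups of finite Hirsch length: the groups which are built from groups in `C` by
amalgamated products and HNN extensions with edge groups of finite Hirsch length and by directed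
unions. -/
inductive Hierarchy (C : ∀ (G : Type) [Group G], Prop) : ∀ (G : Type) [Group G], Prop
  | vertex (G : Type) [Group G] : C G → Hierarchy C G
  | amalgam (G : Type) [Group G] (A B K : Subgroup G) : Amg A B K → FiniteHirsch K →
      Hierarchy C A → Hierarchy C B → Hierarchy C G
  | hnn (M : Type) [Group M] (A B : Subgroup M) (φ : A ≃* B) : FiniteHirsch A →
      Hierarchy C M → Hierarchy C (HNNExtension M A B φ)
  | iso (G H : Type) [Group G] [Group H] : G ≃* H → Hierarchy C H → Hierarchy C G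
  | union (G : Type) [Group G] (I : Type) (K : I → Subgroup G) : Nonempty I →
      Directed (· ≤ ·) K → (∀ g, ∃ i, g ∈ K i) → (∀ i, Hierarchy C (K i)) → Hierarchy C G

/-- **The theorem.** -/
theorem main {C : ∀ (G : Type) [Group G], Prop} (hC : ClosedE C) (G : Type) [Group G]
    (hG : Hierarchy C G) : ResTF C G → C G := by
  induction hG with
  | vertex G h => exact fun _ => h
  | amalgam G A B K hamg hK _ _ ihA ihB =>
    intro hR
    obtain ⟨Q, _, f, hQ, hf⟩ := detect hC hR hK K.subtype K.subtype_injective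
    exact Pool.Agent.R665.FJ.am hC A B K
      (ihA (hR.of_injective A.subtype A.subtype_injective))
      (ihB (hR.of_injective B.subtype B.subtype_injective)) hQ hamg f
      (fun k hk h => congrArg Subtype.val (hf ⟨k, hk⟩ h))
  | hnn M A B φ hA _ ih =>
    intro hR
    have hinj : Function.Injective (HNNExtension.of.comp A.subtype : A →* HNNExtension M A B φ) :=
      fun x y h => Subtype.ext (HNNExtension.of_injective φ h)
    obtain ⟨Q, _, f, hQ, hf⟩ := detect hC hR hA _ hinj
    exact Pool.Agent.R665.FJ.hn hC (ih (hR.of_injective _ (HNNExtension.of_injective φ))) hQ f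
      (fun a ha h => congrArg Subtype.val (hf ⟨a, ha⟩ h))
  | iso G H e _ ih =>
    intro hR
    exact hC.base.of_injective G H e.toMonoidHom e.injective
      (ih (hR.of_injective e.symm.toMonoidHom e.symm.injective))
  | union G I K hI hK hg _ ih =>
    intro hR
    let J : Type := Set.range K
    have hJ : Nonempty J := ⟨⟨K hI.some, hI.some, rfl⟩⟩
    refine Pool.Agent.Y430.SS.of_directed hC.base G J ?_ (fun j => j.1) (fun i j h => h) ?_ ?_
    · rintro ⟨_, i, rfl⟩ ⟨_, j, rfl⟩
      obtain ⟨k, hik, hjk⟩ := hK i j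
      exact ⟨⟨K k, k, rfl⟩, hik, hjk⟩
    · intro g
      obtain ⟨i, hi⟩ := hg g
      exact ⟨⟨K i, i, rfl⟩, hi⟩
    · rintro ⟨_, i, rfl⟩
      exact ih i (hR.of_injective (K i).subtype (K i).subtype_injective)

end Pool.Agent.R632.RH
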